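import Pool.Agent.X249.TR.Final

/-!
# Two types of processors suffice for modular real-time trellis automata

The labelling `T` of a modular automaton is self-similar for blocks of size `P × Q`, where
`P = p ^ r` and `Q = q ^ r` are as large as we like. The new automaton has one bit of label at every
node: the bits of a block mark its first row and its first column and code, near the corner which is
next to the root, the labels in a `2 × 2` window of blocks. A node sees the bits of the nodes above
it; from a triangle of bounded size it reads off its position modulo `P` and `Q`, and the label of
every node of the triangle that lies in a block starting inside the triangle. The new automaton
computes with delay: the node `(i, j)` holds the values of the old automaton at the lower boundary of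
the next block `{I, ..., I + P - 1} × {J, ..., J + Q - 1}`, where `I ≥ i` and `J ≥ j` are the next
multiples of `P` and `Q`.
-/

namespace Pool.Agent.Results.MP_bd4c56_lc.TwoProcessorTypes

open X249.TR

/-- For every modular real-time trellis automaton there is one which accepts the same language and
has at most two types of processors. -/
theorem result : ∀ (S : Type) (A : Automaton S),
    ∃ B : Automaton S, B.language = A.language ∧ B.types ≤ 2 :=
  fun _ A => two_types A

end Pool.Agent.Results.MP_bd4c56_lc.TwoProcessorTypes
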